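import Mathlib

set_option autoImplicit false

universe u

namespace Pool.Agent.Results.MP_279ba3_co.Subgraph

open Cardinal

/-- The colouring number: the least cardinal `κ` for which some well-ordering of the vertices
gives every vertex fewer than `κ` earlier neighbours. -/
noncomputable def col {V : Type u} (G : SimpleGraph V) : Cardinal.{u} :=
  sInf {κ | ∃ r : V → V → Prop, IsWellOrder V r ∧ ∀ x, #{y | G.Adj x y ∧ r y x} < κ}

variable {V : Type u}

def C (G : SimpleGraph V) (k : ℕ) : Prop :=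
  ∃ r : V → V → Prop, IsWellOrder V r ∧ ∀ x, {y | G.Adj x y ∧ r y x}.encard < k

lemma mk_lt_iff (s : Set V) (k : ℕ) : #s < (k : Cardinal) ↔ s.encard < k := by
  rw [← Set.toENat_cardinalMk, toENat_lt_natCast]

lemma col_le_iff (G : SimpleGraph V) (k : ℕ) : col G ≤ k ↔ C G k := by
  constructor
  · intro h
    have hne : {κ : Cardinal.{u} | ∃ r : V → V → Prop, IsWellOrder V r ∧
        ∀ x, #{y | G.Adj x y ∧ r y x} < κ}.Nonempty :=
      ⟨Order.succ #V, WellOrderingRel, inferInstance, fun x =>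
        (mk_set_le _).trans_lt (Order.lt_succ _)⟩
    obtain ⟨r, hr, h2⟩ := csInf_mem hne
    exact ⟨r, hr, fun x => (mk_lt_iff _ _).1 ((h2 x).trans_le h)⟩
  · rintro ⟨r, hr, h⟩
    exact csInf_le' ⟨r, hr, fun x => (mk_lt_iff _ _).2 (h x)⟩

lemma C_iso {W : Type u} {G : SimpleGraph V} {G' : SimpleGraph W} (e : G ≃g G') {k : ℕ}
    (h : C G' k) : C G k := by
  obtain ⟨r, hr, h⟩ := h
  refine ⟨e ⁻¹'o r, (RelEmbedding.preimage e.toEquiv.toEmbedding r).isWellOrder, fun x => ?_⟩
  refine lt_of_le_of_lt ?_ (h (e x))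
  refine Set.encard_le_encard_of_injOn (f := e) ?_ e.injective.injOn
  rintro y ⟨h1, h2⟩
  exact ⟨e.map_adj_iff.2 h1, h2⟩

lemma C_mono {G H : SimpleGraph V} (hHG : H ≤ G) {k : ℕ} (h : C G k) : C H k := by
  obtain ⟨r, hr, h⟩ := h
  refine ⟨r, hr, fun x => lt_of_le_of_lt (Set.encard_le_encard ?_) (h x)⟩
  exact fun y hy => ⟨hHG hy.1, hy.2⟩

def IsM (M : SimpleGraph V) : Prop := ∀ x y z, M.Adj x y → M.Adj x z → y = z

lemma C_matching {H M : SimpleGraph V} (hM : IsM M) {k : ℕ} (h : C H k) : C (H ⊔ M) (k + 1) := by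
  obtain ⟨r, hr, h⟩ := h
  refine ⟨r, hr, fun x => ?_⟩
  have h1 : {y | (H ⊔ M).Adj x y ∧ r y x} ⊆ {y | H.Adj x y ∧ r y x} ∪ {y | M.Adj x y} := by
    rintro y ⟨h1 | h1, h2⟩
    · exact Or.inl ⟨h1, h2⟩
    · exact Or.inr h1
  have h2 : {y | M.Adj x y}.encard ≤ 1 :=
    Set.encard_le_one_iff.2 fun a b ha hb => hM x a b ha hb
  refine lt_of_le_of_lt ((Set.encard_le_encard h1).trans (Set.encard_union_le _ _)) ?_
  refine lt_of_le_of_lt (add_le_add le_rfl h2) ?_
  push_cast
  exact (ENat.add_lt_add_iff_right (by simp)).2 (h x)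

lemma exists_maximal (S : SimpleGraph V) : ∃ M, Maximal (· ∈ {M | M ≤ S ∧ IsM M}) M := by
  refine zorn_le₀ _ fun c hc hch => ⟨sSup c, ⟨sSup_le fun M hM => (hc hM).1, ?_⟩,
    fun z hz => le_sSup hz⟩
  intro x y z h1 h2
  rw [SimpleGraph.sSup_adj] at h1 h2
  obtain ⟨M1, m1, h1⟩ := h1
  obtain ⟨M2, m2, h2⟩ := h2
  rcases hch.total m1 m2 with h | h
  · exact (hc m2).2 x y z (h h1) h2
  · exact (hc m1).2 x y z h1 (h h2)

lemma add_bounded {G : SimpleGraph V} {m : ℕ} (hyp : ∀ H ≤ G, C H (m + 1) → C H m) (N : ℕ) :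
    ∀ S ≤ G, (∀ x y, S.Adj x y → (S.neighborSet x).encard + (S.neighborSet y).encard ≤ N) →
      ∀ H ≤ G, C H m → C (H ⊔ S) m := by
  induction N with
  | zero =>
    intro S _ hd H _ hH
    refine C_mono (sup_le le_rfl fun x y hxy => ?_) hH
    have := hd x y hxy
    simp only [Nat.cast_zero, nonpos_iff_eq_zero, add_eq_zero, Set.encard_eq_zero] at this
    have h2 : y ∈ S.neighborSet x := hxy
    rw [this.1] at h2
    exact h2.elim
  | succ N ih =>
    intro S hS hd H hHG hH
    obtain ⟨M, hM⟩ := exists_maximal S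
    have h1 : C (H ⊔ M) m := hyp _ (sup_le hHG (hM.prop.1.trans hS)) (C_matching hM.prop.2 hH)
    have h2 := ih (S \ M) (sdiff_le.trans hS) ?_ (H ⊔ M) (sup_le hHG (hM.prop.1.trans hS)) h1
    · refine C_mono (sup_le (le_sup_left.trans le_sup_left) ?_) h2
      rw [sup_assoc]
      exact le_sup_sdiff.trans le_sup_right
    · intro x y hxy
      have hxyS : S.Adj x y := hxy.1
      have key : (∃ z, M.Adj x z) ∨ ∃ z, M.Adj y z := by
        by_contra hc
        push Not at hc
        have hle : M ⊔ SimpleGraph.edge x y ≤ M := by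
          refine hM.le_of_ge ⟨sup_le hM.prop.1 ?_, ?_⟩ le_sup_left
          · rw [SimpleGraph.edge_le_iff]
            exact Or.inr hxyS
          · intro a b c hab hac
            simp only [SimpleGraph.sup_adj, SimpleGraph.edge_adj] at hab hac
            rcases hab with hab | ⟨⟨rfl, rfl⟩ | ⟨rfl, rfl⟩, hab⟩
            · rcases hac with hac | ⟨⟨rfl, rfl⟩ | ⟨rfl, rfl⟩, hac⟩
              · exact hM.prop.2 _ _ _ hab hac
              · exact (hc.1 _ hab).elim
              · exact (hc.2 _ hab).elim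
            · rcases hac with hac | ⟨⟨-, rfl⟩ | ⟨h, -⟩, hac⟩
              · exact (hc.1 _ hac).elim
              · rfl
              · exact (hab h).elim
            · rcases hac with hac | ⟨⟨h, -⟩ | ⟨-, rfl⟩, hac⟩
              · exact (hc.2 _ hac).elim
              · exact (hab h).elim
              · rfl
        refine hxy.2 (hle ?_)
        simp [SimpleGraph.edge_adj, hxyS.ne]
      have sub : ∀ a, ((S \ M).neighborSet a).encard ≤ (S.neighborSet a).encard := fun a =>
        Set.encard_le_encard fun b hb => hb.1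
      have drop : ∀ a z, M.Adj a z →
          ((S \ M).neighborSet a).encard + 1 ≤ (S.neighborSet a).encard := by
        intro a z hz
        rw [← Set.encard_insert_of_notMem (a := z) (fun h => h.2 hz)]
        refine Set.encard_le_encard ?_
        rintro b (rfl | hb)
        · exact hM.prop.1 hz
        · exact hb.1
      have h3 : ((S \ M).neighborSet x).encard + ((S \ M).neighborSet y).encard + 1 ≤ N + 1 := by
        refine le_trans ?_ (by exact_mod_cast hd x y hxyS)
        rcases key with ⟨z, hz⟩ | ⟨z, hz⟩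
        · rw [add_right_comm]
          exact add_le_add (drop _ _ hz) (sub _)
        · rw [add_assoc]
          exact add_le_add (sub _) (drop _ _ hz)
      exact (ENat.add_le_add_iff_right (by simp)).1 h3

lemma C_bot (m : ℕ) : C (⊥ : SimpleGraph V) (m + 1) :=
  ⟨WellOrderingRel, inferInstance, fun x => by simp⟩

lemma main {G : SimpleGraph V} {m : ℕ} (hyp : ∀ H ≤ G, C H (m + 1) → C H m) {k : ℕ}
    (hG : C G k) : C G m := by
  classical
  let Ht : Finset (V × V) → SimpleGraph V := fun t =>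
    G ⊓ SimpleGraph.fromRel fun a b => (a, b) ∈ t
  have hHt : ∀ t, C (Ht t) m := by
    intro t
    have hb : ∀ x, ((Ht t).neighborSet x).encard ≤ (t.card + t.card : ℕ) := by
      intro x
      have : (Ht t).neighborSet x ⊆ ((t.image Prod.fst ∪ t.image Prod.snd : Finset V) : Set V) := by
        intro y hy
        have h2 := hy.2
        rw [SimpleGraph.fromRel_adj] at h2
        simp only [Finset.coe_union, Finset.coe_image, Set.mem_union, Set.mem_image,
          Finset.mem_coe]
        rcases h2.2 with h | h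
        · exact Or.inr ⟨_, h, rfl⟩
        · exact Or.inl ⟨_, h, rfl⟩
      refine (Set.encard_le_encard this).trans ?_
      rw [Set.encard_coe_eq_coe_finsetCard, Nat.cast_le]
      exact (Finset.card_union_le _ _).trans (add_le_add Finset.card_image_le Finset.card_image_le)
    have := add_bounded hyp (t.card + t.card + (t.card + t.card)) (Ht t) inf_le_left
      (fun x y _ => by rw [Nat.cast_add]; exact add_le_add (hb x) (hb y)) ⊥ bot_le
      (hyp _ bot_le (C_bot m))
    rwa [bot_sup_eq] at this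
  choose ρ hρ hρb using hHt
  obtain ⟨χ, hχ⟩ := Finset.rado_selection (α := V × V) (β := fun _ => Prop)
    fun t p => ρ t p.1 p.2
  have htot : ∀ a b, a ≠ b → χ (a, b) ∨ χ (b, a) := by
    intro a b hab
    obtain ⟨t, -, ht⟩ := hχ {(a, b), (b, a)}
    rw [ht _ (by simp), ht _ (by simp)]
    have := hρ t
    rcases trichotomous_of (ρ t) a b with h | h | h
    · exact Or.inl h
    · exact (hab h).elim
    · exact Or.inr h
  have hback : ∀ x, {y | G.Adj x y ∧ χ (y, x)}.encard < m := by
    intro x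
    by_contra hc
    obtain ⟨Y, hY, hYc⟩ := Set.exists_subset_encard_eq (not_lt.1 hc)
    have hfin : Y.Finite := Set.finite_of_encard_eq_coe hYc
    obtain ⟨t, hst, ht⟩ := hχ (hfin.toFinset.image fun y => (y, x))
    refine absurd (hρb t x) (not_lt.2 ?_)
    rw [← hYc]
    refine Set.encard_le_encard fun y hy => ?_
    have hm : (y, x) ∈ hfin.toFinset.image fun y => (y, x) :=
      Finset.mem_image.2 ⟨y, hfin.mem_toFinset.2 hy, rfl⟩
    refine ⟨⟨(hY hy).1, ?_⟩, ?_⟩
    · rw [SimpleGraph.fromRel_adj]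
      exact ⟨(hY hy).1.ne, Or.inr (hst hm)⟩
    · have := ht _ hm
      simp only at this
      rw [← this]
      exact (hY hy).2
  obtain ⟨r, hr, hrb⟩ := hG
  let A : SimpleGraph V := G ⊓ SimpleGraph.fromRel fun a b => r a b ∧ χ (a, b)
  have hA : C A m := by
    refine ⟨r, hr, fun x => lt_of_le_of_lt (Set.encard_le_encard ?_) (hback x)⟩
    rintro y ⟨⟨h1, h2⟩, h3⟩
    rw [SimpleGraph.fromRel_adj] at h2
    rcases h2.2 with h | h
    · exact (asymm h3 h.1).elim
    · exact ⟨h1, h.2⟩
  have hb : ∀ x, ((G \ A).neighborSet x).encard ≤ (k + m : ℕ) := by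
    intro x
    have : (G \ A).neighborSet x ⊆ {y | G.Adj x y ∧ r y x} ∪ {y | G.Adj x y ∧ χ (y, x)} := by
      rintro y ⟨h1, h2⟩
      by_contra hc
      simp only [Set.mem_union, Set.mem_setOf_eq, h1, true_and, not_or] at hc
      refine h2 ⟨h1, ?_⟩
      rw [SimpleGraph.fromRel_adj]
      refine ⟨h1.ne, Or.inl ⟨?_, (htot _ _ h1.ne).resolve_right hc.2⟩⟩
      rcases trichotomous_of r x y with h | h | h
      · exact h
      · exact (h1.ne h).elim
      · exact (hc.1 h).elim
    refine ((Set.encard_le_encard this).trans (Set.encard_union_le _ _)).trans ?_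
    rw [Nat.cast_add]
    exact add_le_add (hrb x).le (hback x).le
  have := add_bounded hyp (k + m + (k + m)) (G \ A) sdiff_le
    (fun x y _ => by rw [Nat.cast_add]; exact add_le_add (hb x) (hb y)) A inf_le_left hA
  exact C_mono le_sup_sdiff this

theorem result (V : Type u) (G : SimpleGraph V) (n : ℕ) (hG : col G = (n : Cardinal) + 1) :
    ∃ G' : G.Subgraph, col G'.coe = n := by
  rcases n with _ | m
  · refine ⟨⊥, le_antisymm ?_ (by simp)⟩
    rw [col_le_iff]
    exact ⟨WellOrderingRel, inferInstance, fun x => x.2.elim⟩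
  by_contra hc
  push Not at hc
  have hyp : ∀ H ≤ G, C H (m + 1) → C H m := by
    intro H hH h
    let e : (SimpleGraph.toSubgraph H hH).coe ≃g H :=
      ⟨Equiv.Set.univ V, Iff.rfl⟩
    have h1 := (col_le_iff _ _).2 (C_iso e h)
    have h2 := lt_of_le_of_ne h1 (hc _)
    rw [Nat.cast_succ, ← Cardinal.succ_natCast, Order.lt_succ_iff] at h2
    exact C_iso e.symm ((col_le_iff _ _).1 h2)
  have h1 : C G (m + 1 + 1) := (col_le_iff _ _).1 (by rw [hG]; push_cast; rfl)
  have h2 := (col_le_iff _ _).2 (main hyp h1)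
  rw [hG] at h2
  have h3 : ((m + 1 + 1 : ℕ) : Cardinal.{u}) ≤ m := by push_cast at h2 ⊢; exact h2
  have := Nat.cast_le.1 h3
  omega

end Pool.Agent.Results.MP_279ba3_co.Subgraph
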